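import Mathlib
import Pool.Agent.Helper141_tverberg.Symmetric

set_option autoImplicit false

namespace Pool.Agent.Results.MP_de0e04_co.AntipodalPairs

open Pool.Agent.Helper141

/-- Kalai's inequality `∑ dim T_r(X) ≥ 0` for every finite set `X` for which some point `z` has
the property that the points of `X` other than `z` split into pairs `{x, σ x}` with `z` strictly
between `x` and `σ x`; in particular for every centrally symmetric finite set, in every
dimension. -/
theorem result (d : ℕ) (X : Finset (EuclideanSpace ℝ (Fin d))) (z : EuclideanSpace ℝ (Fin d))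
    (σ : EuclideanSpace ℝ (Fin d) → EuclideanSpace ℝ (Fin d))
    (hσ : ∀ x ∈ X, x ≠ z → σ x ∈ X ∧ σ (σ x) = x ∧ z ∈ openSegment ℝ x (σ x)) :
    0 ≤ ∑ r ∈ Finset.Icc 1 X.card, tdim X r :=
  sum_tdim_nonneg hσ

end Pool.Agent.Results.MP_de0e04_co.AntipodalPairs
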