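import Mathlib
import Pool.Agent.Helper141_tverberg.Final

set_option autoImplicit false

namespace Pool.Agent.Results.MP_de0e04_co.FewPoints

open Pool.Agent.Helper141

/-- Kalai's inequality `∑ dim T_r(X) ≥ 0` for every finite set `X` with at most `D + 4` points,
where `D` is the dimension of the affine hull of `X`, in every dimension `d`. -/
theorem result (d : ℕ) (X : Finset (EuclideanSpace ℝ (Fin d)))
    (hX : X.card ≤ Module.finrank ℝ (vectorSpan ℝ (X : Set (EuclideanSpace ℝ (Fin d)))) + 4) :
    0 ≤ ∑ r ∈ Finset.Icc 1 X.card, tdim X r :=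
  sum_nonneg_of_few hX

end Pool.Agent.Results.MP_de0e04_co.FewPoints
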