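import Mathlib
import Pool.Agent.Helper141_tverberg.Final

set_option autoImplicit false

namespace Pool.Agent.Results.MP_de0e04_co.FiniteRadon

open Pool.Agent.Helper141

/-- If `dim T_2(X) ≤ 0` then `T_r(X)` is nonempty for every `r ≤ |X| - D`, where `D` is the
dimension of the affine hull of `X`, and Kalai's inequality `∑ dim T_r(X) ≥ 0` holds. -/
theorem result (d : ℕ) (X : Finset (EuclideanSpace ℝ (Fin d))) (hne : X.Nonempty)
    (hX : tdim X 2 ≤ 0) :
    (∀ r : ℕ, 1 ≤ r →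
      r + Module.finrank ℝ (vectorSpan ℝ (X : Set (EuclideanSpace ℝ (Fin d)))) ≤ X.card →
        (tverbergSet X r).Nonempty) ∧
    0 ≤ ∑ r ∈ Finset.Icc 1 X.card, tdim X r := by
  refine ⟨fun r h1 h2 => ?_, sum_nonneg_of_thin hX⟩
  obtain ⟨c, x, hx⟩ := cell_nonempty_of_thin hne hX h1 h2
  exact ⟨x, c, hx⟩

end Pool.Agent.Results.MP_de0e04_co.FiniteRadon
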